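import Pool.Agent.H.MP_098a03_an.B

set_option autoImplicit false

namespace Pool.Agent.Results.MP_098a03_an.No

open Filter Topology Set Metric TopologicalSpace
open scoped Pointwise

/-- partial Minkowski sums of the exponential series -/
noncomputable def part (A : Set ℝ) (n : ℕ) : Set ℝ :=
  ∑ i ∈ Finset.range (n + 1), (1 / (i.factorial : ℝ)) • A ^ i

/-- the limit of the partial Minkowski sums -/
def expS (A : Set ℝ) : Set ℝ := {y | Tendsto (fun n => infDist y (part A n)) atTop (𝓝 0)}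

open Pool.Agent.H.MP_098a03_an in
theorem key {A : Set ℝ} {a b : ℝ} (ha : a ∈ A) (hb : b ∈ A) (h0 : 0 < a) (h1 : a < b) (h2 : b ≤ 1) :
    0 < dimH (expS A) := by
  have h3 : 0 < b := h0.trans h1
  refine (main h3 h2 (div_pos h0 h3) ((div_lt_one h3).2 h1)).trans_le (dimH_mono ?_)
  rintro y ⟨J, h4, h5⟩
  have h6 := tendsto_iff_dist_tendsto_zero.1 ((tendsto_add_atTop_iff_nat 1).2 h5.tendsto_sum_nat)
  refine squeeze_zero (fun _ => infDist_nonneg) (fun n => ?_) h6
  rw [dist_comm]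
  refine infDist_le_dist_of_mem (Set.finset_sum_mem_finset_sum _ _ _ fun i _ => ⟨a ^ J i * b ^ (i - J i), ?_, ?_⟩)
  · conv_lhs => rw [← Nat.add_sub_cancel' (h4 i), pow_add]
    exact mul_mem_mul (pow_mem_pow ha) (pow_mem_pow hb)
  · obtain ⟨k, hk⟩ := Nat.exists_eq_add_of_le (h4 i)
    have : b ^ i = b ^ J i * b ^ (i - J i) := by rw [← pow_add, Nat.add_sub_cancel' (h4 i)]
    simp only [c, this, smul_eq_mul, div_pow]
    field_simp

theorem result : ¬ IsMeagre {K : NonemptyCompacts (Icc (0 : ℝ) 1) |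
    0 < dimH (expS (Subtype.val '' (K : Set (Icc (0 : ℝ) 1))))} := fun h => by
  let p : Icc (0 : ℝ) 1 := ⟨1 / 4, by norm_num⟩
  let q : Icc (0 : ℝ) 1 := ⟨3 / 4, by norm_num⟩
  let K : NonemptyCompacts (Icc (0 : ℝ) 1) := ⟨⟨{p, q}, (toFinite _).isCompact⟩, by simp⟩
  refine not_isMeagre_of_isOpen (isOpen_ball (x := K))
    (nonempty_ball.2 (show (0 : ℝ) < 1 / 4 by norm_num)) (h.mono fun L hL => ?_)
  rw [mem_ball', NonemptyCompacts.dist_eq] at hL
  have h1 := hausdorffEDist_ne_top_of_nonempty_of_bounded K.nonempty L.nonempty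
    K.isCompact.isBounded L.isCompact.isBounded
  obtain ⟨a, h2, h3⟩ := exists_dist_lt_of_hausdorffDist_lt (x := p) (by simp [K]) hL h1
  obtain ⟨b, h4, h5⟩ := exists_dist_lt_of_hausdorffDist_lt (x := q) (by simp [K]) hL h1
  rw [Subtype.dist_eq, Real.dist_eq, abs_lt] at h3 h5
  exact key (mem_image_of_mem _ h2) (mem_image_of_mem _ h4) (by linarith [h3.2])
    (by linarith [h3.1, h5.2]) b.2.2

end Pool.Agent.Results.MP_098a03_an.No
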